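import Pool.Agent.Work.MP_db9399_lh.Interface
import Pool.Agent.Work.MP_db9399_lc_helper34.LEFT

/-!
# LEFT: the leftover edges (THEOREM LCH)

After the rounds of the colours `e x` the edges which are neither final reserve edges nor in the
near-decomposition form a graph of maximum degree at most `d / (L (S + 1)) + 5 d / N`; Vizing's
theorem gives the matchings.
-/

set_option autoImplicit false

namespace Pool.Agent.Work.MP_db9399_lh.helper34

open Finset Classical
open Pool.Agent.Work.MP_db9399_all (nb)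
open Pool.Agent.Work.MP_db9399_dn (IsMat)
open Pool.Agent.Work.MP_db9399_bg (den cl LabP Lbl bx c3f c3 rs rs_symm Ix mem_nb mem_cl mem_bx
  den_bx den_cell den_nonneg card_univ_zmod card_univ_fin natCast_inj natCast_eq_neg mem_c3)
open Pool.Agent.Work.MP_db9399_lc (BL)
open Pool.Agent.Work.MP_db9399_lc.helper34 (card_nrs exists_h)
open Pool.Agent.Work.MP_db9399_lh

universe u

section dens
variable {l m r K K1 S : ℕ}

/-- proportion of a product -/
theorem den_prod {T T' : Type} [Fintype T] [Fintype T'] (P : Finset T) (Q : Finset T') :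
    den (P ×ˢ Q) = den P * den Q := by
  unfold den
  rw [card_product, Fintype.card_prod]
  push_cast
  rw [div_mul_div_comm]

/-- proportion of the labels of a cell without the final reserve -/
theorem den_nrf (hl : 1 ≤ l) (b : ZMod (2 * m + 1)) (c : Cr l S) :
    den (univ.filter (fun t : Lh l m r K K1 S => ce t = b ∧ ¬ rf c (cr t))) =
      (1 - 2 / (3 * (2 * (l : ℝ) + 1))) / (2 * m + 1) := by
  -- all labels of the cell
  have hA : den ((bx {b} univ univ univ univ univ : Finset (Lbl l m r K K1)) ×ˢ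
      (univ : Finset (ZMod 3 × ZMod (S + 1)))) = 1 / (2 * (m : ℝ) + 1) := by
    rw [den_prod, den_cell]
    have h1 : den (univ : Finset (ZMod 3 × ZMod (S + 1))) = 1 := by
      unfold den
      rw [card_univ]
      have : 0 < Fintype.card (ZMod 3 × ZMod (S + 1)) := Fintype.card_pos
      rw [div_self (by exact_mod_cast this.ne')]
    rw [h1, mul_one]
  -- the final reserve
  have hB : den ((bx {b} (univ.filter (fun y => rs c.1 y)) univ univ univ univ :
      Finset (Lbl l m r K K1)) ×ˢ (({c.2.1} : Finset (ZMod 3)) ×ˢ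
        (univ : Finset (ZMod (S + 1))))) = 2 / (3 * (2 * (l : ℝ) + 1)) / (2 * m + 1) := by
    rw [den_prod, den_prod, den_bx, card_univ_zmod, card_univ_fin, card_univ_fin, card_univ_fin,
      card_singleton]
    have h1 := card_nrs hl c.1
    have h3 := card_filter_add_card_filter_not (s := (univ : Finset (ZMod (2 * l + 1))))
      (fun y => rs c.1 y)
    rw [card_univ, ZMod.card] at h3
    have h2 : ((univ.filter (fun y : ZMod (2 * l + 1) => rs c.1 y)).card : ℝ) = 2 := by
      have : (univ.filter (fun y : ZMod (2 * l + 1) => rs c.1 y)).card = 2 := by omega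
      rw [this]; norm_num
    have h4 : den (univ : Finset (ZMod (S + 1))) = 1 := by
      unfold den
      rw [card_univ]
      have : 0 < Fintype.card (ZMod (S + 1)) := Fintype.card_pos
      rw [div_self (by exact_mod_cast this.ne')]
    have h5 : den ({c.2.1} : Finset (ZMod 3)) = 1 / 3 := by
      unfold den
      rw [card_singleton, ZMod.card]
      norm_num
    rw [h2, h4, h5]
    have h6 : ((r : ℝ) + 1) ≠ 0 := by positivity
    have h7 : ((K : ℝ) + 1) ≠ 0 := by positivity
    have h8 : ((K1 : ℝ) + 1) ≠ 0 := by positivity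
    push_cast
    field_simp
  set A := (bx {b} univ univ univ univ univ : Finset (Lbl l m r K K1)) ×ˢ
      (univ : Finset (ZMod 3 × ZMod (S + 1))) with hAd
  set B := (bx {b} (univ.filter (fun y => rs c.1 y)) univ univ univ univ :
      Finset (Lbl l m r K K1)) ×ˢ (({c.2.1} : Finset (ZMod 3)) ×ˢ
        (univ : Finset (ZMod (S + 1)))) with hBd
  have hBA : B ⊆ A := by
    intro t ht
    rw [hBd, mem_product, mem_bx] at ht
    rw [hAd, mem_product, mem_bx]
    exact ⟨⟨ht.1.1, mem_univ _, mem_univ _, mem_univ _, mem_univ _, mem_univ _⟩, mem_univ _⟩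
  have hE : univ.filter (fun t : Lh l m r K K1 S => ce t = b ∧ ¬ rf c (cr t)) = A \ B := by
    ext t
    rw [mem_filter, mem_sdiff, hAd, hBd, mem_product, mem_product, mem_product, mem_bx, mem_bx,
      mem_singleton, mem_filter, mem_singleton]
    constructor
    · rintro ⟨-, h1, h2⟩
      refine ⟨⟨⟨h1, mem_univ _, mem_univ _, mem_univ _, mem_univ _, mem_univ _⟩, mem_univ _⟩, ?_⟩
      rintro ⟨⟨_, ⟨_, h3⟩, _⟩, h4, _⟩
      exact h2 ⟨h4.symm, h3⟩
    · rintro ⟨⟨⟨h1, _⟩, _⟩, h2⟩
      refine ⟨mem_univ _, h1, fun h3 => h2 ?_⟩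
      exact ⟨⟨h1, ⟨mem_univ _, h3.2⟩, mem_univ _, mem_univ _, mem_univ _, mem_univ _⟩,
        h3.1.symm, mem_univ _⟩
  rw [hE]
  have h9 : den (A \ B) = den A - den B := by
    unfold den
    rw [card_sdiff_of_subset hBA, Nat.cast_sub (card_le_card hBA), sub_div]
  rw [h9, hA, hB]
  ring

/-- proportion of a cell -/
theorem den_ce (b : ZMod (2 * m + 1)) :
    den (univ.filter (fun t : Lh l m r K K1 S => ce t = b)) = 1 / (2 * (m : ℝ) + 1) := by
  have hE : univ.filter (fun t : Lh l m r K K1 S => ce t = b) =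
      (bx {b} univ univ univ univ univ : Finset (Lbl l m r K K1)) ×ˢ
      (univ : Finset (ZMod 3 × ZMod (S + 1))) := by
    ext t
    rw [mem_filter, mem_product, mem_bx, mem_singleton]
    constructor
    · rintro ⟨-, h1⟩
      exact ⟨⟨h1, mem_univ _, mem_univ _, mem_univ _, mem_univ _, mem_univ _⟩, mem_univ _⟩
    · rintro ⟨⟨h1, _⟩, _⟩
      exact ⟨mem_univ _, h1⟩
  rw [hE, den_prod, den_cell]
  have h1 : den (univ : Finset (ZMod 3 × ZMod (S + 1))) = 1 := by
    unfold den
    rw [card_univ]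
    have : 0 < Fintype.card (ZMod 3 × ZMod (S + 1)) := Fintype.card_pos
    rw [div_self (by exact_mod_cast this.ne')]
  rw [h1, mul_one]

/-- the types at a vertex of the part `p` -/
theorem sum_ft (ν : ℕ) (p : ZMod 3) :
    ∑ t ∈ univ.erase (some p), ft l S ν t = f0 l S ν + 2 * fq l S ν := by
  have h1 := Finset.sum_erase_eq_sub (f := ft l S ν) (mem_univ (some p))
  rw [h1, Fintype.sum_option]
  have h2 : ∀ j : ZMod 3, ft l S ν (some j) = fq l S ν := by
    intro j
    unfold ft
    rw [if_neg (by simp)]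
  have h3 : ft l S ν none = f0 l S ν := by
    unfold ft
    rw [if_pos rfl]
  simp only [h2, h3, sum_const, card_univ, ZMod.card, nsmul_eq_mul]
  push_cast
  ring

end dens

section
variable {V : Type u} [Fintype V] {l m r K K1 S w : ℕ}

/-- the leftover graph -/
def LO (G : SimpleGraph V) (UH : Finset V) (lab : V → Lh l m r K K1 S)
    (Nd M : Ix m w → SimpleGraph V) : SimpleGraph V where
  Adj v v' := G.Adj v v' ∧ v ∉ UH ∧ v' ∉ UH ∧ ¬ (Rf G UH lab).Adj v v' ∧
    (∀ x, ¬ (Nd x).Adj v v') ∧ ∀ x, ¬ (M x).Adj v v'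
  symm := ⟨fun _ _ h => ⟨h.1.symm, h.2.2.1, h.2.1, fun h' => h.2.2.2.1 h'.symm,
    fun x hx => h.2.2.2.2.1 x hx.symm, fun x hx => h.2.2.2.2.2 x hx.symm⟩⟩
  loopless := ⟨fun v h => G.loopless.irrefl v h.1⟩

/-- the edges of the near-decomposition are not final reserve edges -/
theorem ty_not_rf {ν : ℕ} {τ : Option (ZMod 3)} {c c' : Cr l S} (hl : 3 ≤ l)
    (h : ty ν τ c c') : ¬ rf c c' := by
  rintro ⟨h1, h2⟩
  rcases h with ⟨j, _, h3⟩ | ⟨_, h3, _⟩
  · obtain ⟨_, _, _, h4 | ⟨_, h4⟩⟩ := h3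
    · exact h4.1 h1
    · have key : ∀ n : ℕ, 2 ≤ n → n < 2 * l + 1 → c.1 + c'.1 ≠ (n : ZMod (2 * l + 1)) := by
        intro n hn hn2 h5
        rcases h2 with h2 | h2
        · rw [h5] at h2
          have : ((n : ℕ) : ZMod (2 * l + 1)) = ((0 : ℕ) : ZMod (2 * l + 1)) := by simpa using h2
          have := natCast_inj hn2 (by omega) this
          omega
        · rw [h5] at h2
          have : ((n : ℕ) : ZMod (2 * l + 1)) = ((1 : ℕ) : ZMod (2 * l + 1)) := by simpa using h2
          have := natCast_inj hn2 (by omega) this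
          omega
      rcases h4 with ⟨h4, _⟩ | ⟨h4, _⟩
      · exact key 4 (by omega) (by omega) (by rw [h4]; norm_num)
      · exact key 5 (by omega) (by omega) (by rw [h4]; norm_num)
  · exact h3 (Or.inl ⟨h1, h2⟩)

/-- the matchings with centre `a0` at a vertex of the cell `a0 ± (h + 1)` -/
theorem nd_count {ν : ℕ} {G : SimpleGraph V} {UH : Finset V} {lab : V → Lh l m r K K1 S}
    {τ : Fin w → Option (ZMod 3)} (hl : 3 ≤ l)
    {Nd : Ix m w → SimpleGraph V} (hN : NDec ν G UH lab τ Nd) (v : V) (hv : v ∉ UH)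
    (a0 : ZMod (2 * m + 1)) (hne : ce (lab v) ≠ a0) (hk : kp (lab v) ≠ a0) :
    ∃ Z : Finset V, (m - 1) * (univ.filter (fun s => τ s ≠ some (pt (lab v)))).card ≤ Z.card ∧
      (∀ z ∈ Z, ∃ x, (Nd x).Adj v z) ∧
      ∀ z ∈ Z, G.Adj v z ∧ ce (lab v) + ce (lab z) = 2 * a0 ∧
        ¬ rf (cr (lab v)) (cr (lab z)) := by
  obtain ⟨h, hh⟩ := exists_h (ce (lab v) - a0) (sub_ne_zero.mpr hne)
  -- the indices
  have hc : ∀ y : Fin m × Fin w, y.1 ≠ h → ce (lab v) ∉ c3 a0 y.1 := by
    intro y hy hmem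
    rw [mem_c3] at hmem
    have hy1 : (y.1 : ℕ) ≠ (h : ℕ) := fun hE => hy (Fin.ext hE)
    have b1 := y.1.2
    have b2 := h.2
    rcases hmem with h0 | h0 | h0
    · exact hne h0
    · have h1 : ce (lab v) - a0 = (((y.1 : ℕ) + 1 : ℕ) : ZMod (2 * m + 1)) := by
        rw [h0]; ring
      rw [h1] at hh
      rcases hh with hh | hh
      · have := natCast_inj (by omega) (by omega) hh
        omega
      · exact natCast_eq_neg (by omega) (by omega) hh
    · have h1 : ce (lab v) - a0 = -(((y.1 : ℕ) + 1 : ℕ) : ZMod (2 * m + 1)) := by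
        rw [h0]; ring
      rw [h1] at hh
      rcases hh with hh | hh
      · exact natCast_eq_neg (by omega) (by omega) hh.symm
      · have := natCast_inj (by omega) (by omega) (neg_injective hh)
        omega
  have hcov : ∀ y : Fin m × Fin w, y.1 ≠ h → τ y.2 ≠ some (pt (lab v)) →
      ∃ z, (Nd (a0, y)).Adj v z := by
    intro y hy hty
    have := hN.cov (a0, y) v hv (hc y hy) hty (fun h0 => hk h0.1)
    obtain ⟨z, hz⟩ := this
    exact ⟨z, mem_nb.mp hz⟩
  haveI : Nonempty V := ⟨v⟩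
  choose! f hf using hcov
  let I : Finset (Fin m × Fin w) := (univ.filter (fun h' : Fin m => h' ≠ h)) ×ˢ
    (univ.filter (fun s => τ s ≠ some (pt (lab v))))
  have hI : ∀ y ∈ I, y.1 ≠ h ∧ τ y.2 ≠ some (pt (lab v)) := by
    intro y hy
    have := mem_product.mp hy
    exact ⟨(mem_filter.mp this.1).2, (mem_filter.mp this.2).2⟩
  refine ⟨I.image f, ?_, ?_, ?_⟩
  · rw [card_image_of_injOn]
    · have h1 : (univ.filter (fun h' : Fin m => h' ≠ h)).card = m - 1 := by
        rw [filter_ne', card_erase_of_mem (mem_univ _), card_univ, Fintype.card_fin]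
      rw [card_product, h1]
    · intro y hy y' hy' hE
      by_contra hne'
      have h1 := hf y (hI y hy).1 (hI y hy).2
      have h2 := hf y' (hI y' hy').1 (hI y' hy').2
      rw [← hE] at h2
      exact hN.dis (a0, y) (a0, y') (fun h0 => hne' (Prod.ext_iff.mp h0).2) v (f y) h1 h2
  · intro z hz
    obtain ⟨y, hy, rfl⟩ := mem_image.mp hz
    exact ⟨(a0, y), hf y (hI y hy).1 (hI y hy).2⟩
  · intro z hz
    obtain ⟨y, hy, rfl⟩ := mem_image.mp hz
    have h1 := hf y (hI y hy).1 (hI y hy).2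
    obtain ⟨-, -, h3, h4⟩ := hN.adj _ _ _ h1
    exact ⟨hN.le _ h1, h3, ty_not_rf hl h4⟩

/-- the degrees of the leftover graph -/
theorem LO_deg (hl : 3 ≤ l) (hm : 2 ≤ m) {ν : ℕ} (hν : ν ≤ S) {G : SimpleGraph V}
    {UH : Finset V} {d : ℕ} {σ c1 : ℝ} {lab : V → Lh l m r K K1 S}
    {τ : Fin w → Option (ZMod 3)} {Nd M : Ix m w → SimpleGraph V}
    (hd : ∀ v, (nb G v).card ≤ d) (hL : LabP G d σ c1 lab) (hN : NDec ν G UH lab τ Nd)
    (hw : ∀ t, (1 - 2 / (2 * m + 1)) * (ft l S ν t * d / (2 * m + 1)) ≤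
        ((m : ℝ) - 1) * (univ.filter (fun s => τ s = t)).card) (v : V) :
    ((nb (LO G UH lab Nd M) v).card : ℝ) ≤ (d : ℝ) / ((2 * l + 1) * (S + 1)) +
      4 * d / (2 * m + 1) + (2 * m + 1) * (σ * d) := by
  have hNpos : (0 : ℝ) < 2 * (m : ℝ) + 1 := by positivity
  have hLpos : (0 : ℝ) < 2 * (l : ℝ) + 1 := by positivity
  have hSpos : (0 : ℝ) < (S : ℝ) + 1 := by positivity
  have hd0 : (0 : ℝ) ≤ d := Nat.cast_nonneg _
  have hσ : 0 ≤ σ * d := by
    have h1 := hL.deg v ∅
    exact le_trans (abs_nonneg _) h1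
  by_cases hvU : v ∉ UH
  swap
  · have : nb (LO G UH lab Nd M) v = ∅ := by
      rw [eq_empty_iff_forall_notMem]
      intro z hz
      rw [mem_nb] at hz
      exact hvU hz.2.1
    rw [this, card_empty]
    push_cast
    positivity
  set a := ce (lab v) with ha
  set κ := kp (lab v) with hκ
  -- the number of all neighbours in a cell
  have hcell : ∀ b : ZMod (2 * m + 1),
      (((nb (LO G UH lab Nd M) v).filter (fun z => ce (lab z) = b)).card : ℝ) ≤
        d / (2 * m + 1) + σ * d := by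
    intro b
    have h1 := hL.deg v (univ.filter (fun t => ce t = b))
    rw [den_ce] at h1
    have h2 := (abs_le.mp h1).2
    have h3 : ((nb (LO G UH lab Nd M) v).filter (fun z => ce (lab z) = b)) ⊆
        nb G v ∩ cl lab (univ.filter (fun t => ce t = b)) := by
      intro z hz
      rw [mem_filter, mem_nb] at hz
      rw [mem_inter, mem_nb, mem_cl, mem_filter]
      exact ⟨hz.1.1, mem_univ _, hz.2⟩
    have h4 : (((nb (LO G UH lab Nd M) v).filter (fun z => ce (lab z) = b)).card : ℝ) ≤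
        ((nb G v ∩ cl lab (univ.filter (fun t => ce t = b))).card : ℝ) := by
      exact_mod_cast card_le_card h3
    have h5 : 1 / (2 * (m : ℝ) + 1) * ((nb G v).card : ℝ) ≤ d / (2 * m + 1) := by
      rw [one_div_mul_eq_div]
      apply div_le_div_of_nonneg_right _ hNpos.le
      exact_mod_cast hd v
    linarith
  -- the number of colours
  have hcol : (1 - 2 / (2 * (m : ℝ) + 1)) * ((f0 l S ν + 2 * fq l S ν) * d / (2 * m + 1)) ≤
      ((m : ℝ) - 1) * (univ.filter (fun s => τ s ≠ some (pt (lab v)))).card := by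
    have h1 : (univ.filter (fun s => τ s ≠ some (pt (lab v)))).card =
        ∑ t ∈ univ.erase (some (pt (lab v))), (univ.filter (fun s => τ s = t)).card := by
      have h2 := card_eq_sum_card_fiberwise (s := univ.filter (fun s => τ s ≠ some (pt (lab v))))
        (t := univ.erase (some (pt (lab v)))) (f := τ) (by
          intro s hs
          have hs' := mem_coe.mp hs
          rw [mem_coe, mem_erase]
          exact ⟨(mem_filter.mp hs').2, mem_univ _⟩)
      rw [h2]
      apply sum_congr rfl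
      intro t ht
      rw [mem_erase] at ht
      congr 1
      ext s
      rw [mem_filter, mem_filter, mem_filter]
      constructor
      · rintro ⟨⟨h3, _⟩, h4⟩
        exact ⟨h3, h4⟩
      · rintro ⟨h3, h4⟩
        exact ⟨⟨h3, by rw [h4]; exact ht.1⟩, h4⟩
    rw [h1]
    push_cast
    rw [mul_sum, ← sum_ft ν (pt (lab v)), sum_mul, sum_div, mul_sum]
    exact sum_le_sum (fun t _ => hw t)
  -- generic cells
  have hgen : ∀ b : ZMod (2 * m + 1), b ≠ a → b ≠ 2 * κ - a →
      (((nb (LO G UH lab Nd M) v).filter (fun z => ce (lab z) = b)).card : ℝ) ≤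
        (d : ℝ) / ((2 * l + 1) * (S + 1)) / (2 * m + 1) + 2 * d / (2 * m + 1) ^ 2 + σ * d := by
    intro b hb1 hb2
    obtain ⟨a0, ha0⟩ : ∃ a0 : ZMod (2 * m + 1), 2 * a0 = a + b := by
      refine ⟨((m : ZMod (2 * m + 1)) + 1) * (a + b), ?_⟩
      have h2 : ((2 * m + 1 : ℕ) : ZMod (2 * m + 1)) = 0 := ZMod.natCast_self _
      push_cast at h2
      linear_combination (a + b) * h2
    have hne : a ≠ a0 := by
      intro h0
      apply hb1
      rw [← h0] at ha0
      linear_combination -ha0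
    have hkk : κ ≠ a0 := by
      intro h0
      apply hb2
      rw [← h0] at ha0
      linear_combination -ha0
    obtain ⟨Z, hS1, hS2, hS3⟩ := nd_count hl hN v hvU a0 hne hkk
    -- the label set
    set Q : Finset (Lh l m r K K1 S) := univ.filter (fun t => ce t = b ∧
      ¬ rf (cr (lab v)) (cr t)) with hQ
    have hdis : Disjoint Z ((nb (LO G UH lab Nd M) v).filter (fun z => ce (lab z) = b)) := by
      rw [disjoint_left]
      intro z hz1 hz2
      rw [mem_filter, mem_nb] at hz2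
      obtain ⟨x, hx⟩ := hS2 z hz1
      exact hz2.1.2.2.2.2.1 x hx
    have hsub : Z ∪ ((nb (LO G UH lab Nd M) v).filter (fun z => ce (lab z) = b)) ⊆
        nb G v ∩ cl lab Q := by
      intro z hz
      rw [mem_inter, mem_nb, mem_cl, hQ, mem_filter]
      rcases mem_union.mp hz with hz | hz
      · obtain ⟨h1, h2, h3⟩ := hS3 z hz
        refine ⟨h1, mem_univ _, ?_, h3⟩
        rw [← ha] at h2
        linear_combination h2 + ha0
      · rw [mem_filter, mem_nb] at hz
        refine ⟨hz.1.1, mem_univ _, hz.2, fun hrs => hz.1.2.2.2.1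
          ⟨hz.1.1, hz.1.2.1, hz.1.2.2.1, ?_, hrs⟩⟩
        rw [hz.2]
        exact fun h => hb1 h.symm
    have hcard : (Z.card : ℝ) +
        (((nb (LO G UH lab Nd M) v).filter (fun z => ce (lab z) = b)).card : ℝ) ≤
        ((nb G v ∩ cl lab Q).card : ℝ) := by
      have := card_le_card hsub
      rw [card_union_of_disjoint hdis] at this
      exact_mod_cast this
    have hden : den Q = (1 - 2 / (3 * (2 * (l : ℝ) + 1))) / (2 * m + 1) :=
      den_nrf (by omega) b (cr (lab v))
    have h1 := (abs_le.mp (hL.deg v Q)).2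
    have hdn : 0 ≤ den Q := den_nonneg Q
    have h2 : den Q * ((nb G v).card : ℝ) ≤ den Q * d :=
      mul_le_mul_of_nonneg_left (by exact_mod_cast hd v) hdn
    have hS4 : ((m : ℝ) - 1) * (univ.filter (fun s => τ s ≠ some (pt (lab v)))).card ≤
        Z.card := by
      have h3 : (((m - 1) * (univ.filter (fun s => τ s ≠ some (pt (lab v)))).card : ℕ) : ℝ) ≤
        Z.card := by exact_mod_cast hS1
      rw [Nat.cast_mul, Nat.cast_sub (by omega)] at h3
      simpa using h3
    have hfs : f0 l S ν + 2 * fq l S ν =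
        1 - 2 / (3 * (2 * (l : ℝ) + 1)) - 1 / ((2 * (l : ℝ) + 1) * ((S : ℝ) + 1)) := by
      unfold f0
      ring
    have h7 : f0 l S ν + 2 * fq l S ν ≤ 1 := by
      rw [hfs]
      have e1 : (0 : ℝ) ≤ 2 / (3 * (2 * (l : ℝ) + 1)) := by positivity
      have e2 : (0 : ℝ) ≤ 1 / ((2 * (l : ℝ) + 1) * ((S : ℝ) + 1)) := by positivity
      linarith
    have h8 : (f0 l S ν + 2 * fq l S ν) * d / (2 * m + 1) ≤ d / (2 * m + 1) := by
      apply div_le_div_of_nonneg_right _ hNpos.le
      nlinarith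
    have h9 : 2 / (2 * (m : ℝ) + 1) * ((f0 l S ν + 2 * fq l S ν) * d / (2 * m + 1)) ≤
        2 * d / (2 * m + 1) ^ 2 := by
      have e1 : 2 * (d : ℝ) / (2 * m + 1) ^ 2 = 2 / (2 * (m : ℝ) + 1) * (d / (2 * m + 1)) := by
        field_simp
      rw [e1]
      exact mul_le_mul_of_nonneg_left h8 (by positivity)
    have h10 : den Q * d = (f0 l S ν + 2 * fq l S ν) * d / (2 * m + 1) +
        (d : ℝ) / ((2 * l + 1) * (S + 1)) / (2 * m + 1) := by
      rw [hden, hfs]
      field_simp
      ring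
    have h11 : (1 - 2 / (2 * (m : ℝ) + 1)) * ((f0 l S ν + 2 * fq l S ν) * d / (2 * m + 1)) =
        (f0 l S ν + 2 * fq l S ν) * d / (2 * m + 1) -
        2 / (2 * (m : ℝ) + 1) * ((f0 l S ν + 2 * fq l S ν) * d / (2 * m + 1)) := by ring
    linarith
  -- all cells
  have hbd : ∀ b : ZMod (2 * m + 1),
      (((nb (LO G UH lab Nd M) v).filter (fun z => ce (lab z) = b)).card : ℝ) ≤
        ((d : ℝ) / ((2 * l + 1) * (S + 1)) / (2 * m + 1) + 2 * d / (2 * m + 1) ^ 2 + σ * d) +
        ((if b = a then (d : ℝ) / (2 * m + 1) else 0) +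
          (if b = 2 * κ - a then (d : ℝ) / (2 * m + 1) else 0)) := by
    intro b
    have p0 : (0 : ℝ) ≤ (d : ℝ) / ((2 * l + 1) * (S + 1)) / (2 * m + 1) := by positivity
    have p1 : (0 : ℝ) ≤ 2 * d / (2 * m + 1) ^ 2 := by positivity
    have p2 : (0 : ℝ) ≤ (d : ℝ) / (2 * m + 1) := by positivity
    have hc := hcell b
    by_cases hb1 : b = a
    · rw [if_pos hb1]
      split_ifs <;> linarith
    · by_cases hb2 : b = 2 * κ - a
      · rw [if_neg hb1, if_pos hb2]
        linarith
      · rw [if_neg hb1, if_neg hb2]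
        have := hgen b hb1 hb2
        linarith
  have hsum : ((nb (LO G UH lab Nd M) v).card : ℝ) = ∑ b : ZMod (2 * m + 1),
      (((nb (LO G UH lab Nd M) v).filter (fun z => ce (lab z) = b)).card : ℝ) := by
    have := card_eq_sum_card_fiberwise (s := nb (LO G UH lab Nd M) v)
      (t := (univ : Finset (ZMod (2 * m + 1)))) (f := fun z => ce (lab z))
      (fun z _ => by simp)
    exact_mod_cast this
  rw [hsum]
  refine (sum_le_sum (fun b _ => hbd b)).trans ?_
  have s1 : ∑ b : ZMod (2 * m + 1), (if b = a then (d : ℝ) / (2 * m + 1) else 0) =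
      d / (2 * m + 1) := by
    rw [sum_ite_eq' univ a, if_pos (mem_univ _)]
  have s2 : ∑ b : ZMod (2 * m + 1), (if b = 2 * κ - a then (d : ℝ) / (2 * m + 1) else 0) =
      d / (2 * m + 1) := by
    rw [sum_ite_eq' univ (2 * κ - a), if_pos (mem_univ _)]
  rw [sum_add_distrib, sum_const, card_univ, ZMod.card, sum_add_distrib, s1, s2, nsmul_eq_mul]
  push_cast
  have e1 : (2 * (m : ℝ) + 1) * ((d : ℝ) / ((2 * l + 1) * (S + 1)) / (2 * m + 1) +
      2 * d / (2 * m + 1) ^ 2 + σ * d) +
      (d / (2 * (m : ℝ) + 1) + d / (2 * m + 1)) = (d : ℝ) / ((2 * l + 1) * (S + 1)) +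
        4 * d / (2 * m + 1) + (2 * m + 1) * (σ * d) := by
    field_simp
    ring
  linarith

end

theorem stmt_LEFT : Stmt_LEFT.{u} := by
  intro l m r K K1 S ν hl hm hν
  have hNpos : (0 : ℝ) < 2 * (m : ℝ) + 1 := by positivity
  refine ⟨1 / (2 * (m : ℝ) + 1) ^ 2, 1, 2 * m + 1, by positivity, one_pos, ?_⟩
  intro V _ G d w W1 g c1 UH lab τ sy Nd M hd hB hL hN _ hw hw1
  have hdR : 2 * (m : ℝ) + 1 ≤ d := by exact_mod_cast hd
  have h1 : (1 : ℝ) ≤ d / (2 * m + 1) := by
    rw [le_div_iff₀ hNpos]; linarith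
  -- the number of colours
  obtain ⟨x0, hx0⟩ : ∃ x0 : ℝ, x0 = (d : ℝ) / ((2 * l + 1) * (S + 1)) +
      5 * d / (2 * m + 1) := ⟨_, rfl⟩
  have hx00 : 0 ≤ x0 := by rw [hx0]; positivity
  set D : ℕ := ⌊x0⌋₊ with hD
  have hD1 : (D : ℝ) ≤ x0 := Nat.floor_le hx00
  have hDz : ∀ z, D + 1 ≤ (univ.filter (fun y => sy y = z)).card := by
    intro z
    have h2 := hw1 z
    have h3 : ((D + 1 : ℕ) : ℝ) ≤ ((univ.filter (fun y => sy y = z)).card : ℝ) := by
      push_cast
      have e1 : 8 * (d : ℝ) / (2 * m + 1) = 5 * (d : ℝ) / (2 * m + 1) +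
        3 * (d / (2 * m + 1)) := by ring
      rw [e1] at h2
      rw [hx0] at hD1
      linarith
    exact_mod_cast h3
  have hdeg : ∀ v, (nb (LO G UH lab Nd M) v).card ≤ D := by
    intro v
    apply Nat.le_floor
    have h2 := LO_deg (M := M) hl hm hν hB.deg hL hN hw v
    have h3 : (2 * (m : ℝ) + 1) * (1 / (2 * m + 1) ^ 2 * d) = d / (2 * m + 1) := by
      field_simp
    rw [h3] at h2
    have e1 : 5 * (d : ℝ) / (2 * m + 1) = 4 * (d : ℝ) / (2 * m + 1) + d / (2 * m + 1) := by ring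
    rw [hx0, e1]
    linarith
  obtain ⟨t, ht⟩ := MP_db9399_all.VIZ.vizing (LO G UH lab Nd M) D hdeg
  let spp : V → Fin (K1 + 1) := fun v => sp (lab v)
  let Yz : Fin (K1 + 1) × Fin (K1 + 1) → Finset (Fin W1) := fun z =>
    univ.filter (fun y => sy y = z)
  let ix : Fin W1 → ℕ := fun y =>
    ((Yz (sy y)).equivFin ⟨y, mem_filter.mpr ⟨mem_univ _, rfl⟩⟩ : ℕ)
  have hix : ∀ y y', sy y = sy y' → ix y = ix y' → y = y' := by
    intro y y' h h'
    have key : ∀ (z : Fin (K1 + 1) × Fin (K1 + 1)) (hz : sy y = z) (hz' : sy y' = z),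
        ((Yz z).equivFin ⟨y, mem_filter.mpr ⟨mem_univ _, hz⟩⟩ : ℕ) =
          ((Yz z).equivFin ⟨y', mem_filter.mpr ⟨mem_univ _, hz'⟩⟩ : ℕ) → y = y' := by
      intro z hz hz' h0
      have h2 := (Yz z).equivFin.injective (Fin.ext h0)
      exact Subtype.ext_iff.mp h2
    have e1 : ix y' = ((Yz (sy y)).equivFin ⟨y', mem_filter.mpr ⟨mem_univ _, h.symm⟩⟩ : ℕ) := by
      have aux : ∀ (z : Fin (K1 + 1) × Fin (K1 + 1)) (hz : sy y' = z),
          ((Yz (sy y')).equivFin ⟨y', mem_filter.mpr ⟨mem_univ _, rfl⟩⟩ : ℕ) =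
            ((Yz z).equivFin ⟨y', mem_filter.mpr ⟨mem_univ _, hz⟩⟩ : ℕ) := by
        intro z hz
        subst hz
        rfl
      exact aux (sy y) h.symm
    rw [e1] at h'
    exact key (sy y) rfl h.symm h'
  have hex : ∀ (z : Fin (K1 + 1) × Fin (K1 + 1)) (i : ℕ), i < D + 1 →
      ∃ y, sy y = z ∧ ix y = i := by
    intro z i hi
    have hi2 : i < (Yz z).card := lt_of_lt_of_le hi (hDz z)
    refine ⟨((Yz z).equivFin.symm ⟨i, hi2⟩ : Fin W1), ?_, ?_⟩
    · exact (mem_filter.mp ((Yz z).equivFin.symm ⟨i, hi2⟩).2).2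
    · have aux : ∀ (y : Fin W1) (hz : sy y = z),
          ix y = ((Yz z).equivFin ⟨y, mem_filter.mpr ⟨mem_univ _, hz⟩⟩ : ℕ) := by
        intro y hz
        subst hz
        rfl
      rw [aux _ (mem_filter.mp ((Yz z).equivFin.symm ⟨i, hi2⟩).2).2]
      have : (⟨((Yz z).equivFin.symm ⟨i, hi2⟩ : Fin W1), _⟩ : {y // y ∈ Yz z}) =
          (Yz z).equivFin.symm ⟨i, hi2⟩ := rfl
      rw [this, Equiv.apply_symm_apply]
  let Kk : Fin W1 → SimpleGraph V := fun y =>
    { Adj := fun v v' => (LO G UH lab Nd M).Adj v v' ∧ t v v' = ix y ∧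
        min (spp v) (spp v') = (sy y).1 ∧ max (spp v) (spp v') = (sy y).2
      symm := ⟨fun v v' h => ⟨h.1.symm, by rw [← ht.sym v v' h.1]; exact h.2.1,
        by rw [min_comm]; exact h.2.2.1, by rw [max_comm]; exact h.2.2.2⟩⟩
      loopless := ⟨fun v h => (LO G UH lab Nd M).loopless.irrefl v h.1⟩ }
  refine ⟨Kk, ?_, ?_, ?_, ?_, ?_, ?_⟩
  · intro y v v' h
    exact h.1.1
  · intro y v
    rw [card_le_one]
    intro z hz z' hz'
    rw [mem_nb] at hz hz'
    exact ht.inj v (by simpa [nb] using hz.1) (by simpa [nb] using hz'.1)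
      (hz.2.1.trans hz'.2.1.symm)
  · intro y v v' h
    refine ⟨h.1.2.1, h.1.2.2.2.1, ?_⟩
    rcases le_total (spp v) (spp v') with hle | hle
    · left
      have := h.2.2.1
      rw [min_eq_left hle] at this
      exact this
    · right
      have := h.2.2.2
      rw [max_eq_left hle] at this
      exact this
  · intro y y' hne v v' h h'
    apply hne
    have e1 : (sy y).1 = (sy y').1 := h.2.2.1.symm.trans h'.2.2.1
    have e2 : (sy y).2 = (sy y').2 := h.2.2.2.symm.trans h'.2.2.2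
    exact hix y y' (Prod.ext e1 e2) (h.2.1.symm.trans h'.2.1)
  · intro y v v' h x
    exact ⟨h.1.2.2.2.2.1 x, h.1.2.2.2.2.2 x⟩
  · intro v v' hv hv' hG hW
    by_cases hx : ∃ x, (Nd x).Adj v v'
    · exact Or.inl hx
    · by_cases hx' : ∃ x, (M x).Adj v v'
      · exact Or.inr (Or.inl hx')
      · right; right
        push Not at hx hx'
        have hLO : (LO G UH lab Nd M).Adj v v' := ⟨hG, hv, hv', hW, hx, hx'⟩
        have hm1 := mem_range.mp (ht.mem v v' hLO)
        obtain ⟨y, hy1, hy2⟩ := hex (min (spp v) (spp v'), max (spp v) (spp v')) (t v v')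
          (by omega)
        refine ⟨y, hLO, hy2.symm, ?_, ?_⟩
        · rw [hy1]
        · rw [hy1]

end Pool.Agent.Work.MP_db9399_lh.helper34
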